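import Mathlib

/-!
# Symbolic dynamics: the shift, orbit closures, transitivity via Baire category
-/

set_option autoImplicit false

open Set Filter Topology

namespace Pool.Agent.Q189.SS

/-- In a second countable Baire space, topological transitivity gives a point with dense orbit
(even a dense set of times `n ≥ N` for every `N`). -/
theorem exists_dense_orbit {X : Type*} [TopologicalSpace X] [BaireSpace X]
    [SecondCountableTopology X] [Nonempty X] {T : X → X} (hT : Continuous T)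
    (h : ∀ U V : Set X, IsOpen U → IsOpen V → U.Nonempty → V.Nonempty → ∀ N : ℕ,
      ∃ n ≥ N, (U ∩ T^[n] ⁻¹' V).Nonempty) :
    ∃ z : X, ∀ N : ℕ, Dense {y | ∃ n ≥ N, y = T^[n] z} := by
  classical
  let B := TopologicalSpace.countableBasis X
  have hB := TopologicalSpace.isBasis_countableBasis X
  have hBc : B.Countable := TopologicalSpace.countable_countableBasis X
  have : Countable B := hBc.to_subtype
  let G : B × ℕ → Set X := fun p => ⋃ n ≥ p.2, T^[n] ⁻¹' (p.1 : Set X)
  have hGo : ∀ p, IsOpen (G p) := fun p =>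
    isOpen_biUnion fun n _ => (hB.isOpen p.1.2).preimage (hT.iterate n)
  have hGd : ∀ p, Dense (G p) := by
    intro p
    rw [dense_iff_inter_open]
    intro U hU hUne
    have hne : (p.1 : Set X).Nonempty := TopologicalSpace.nonempty_of_mem_countableBasis p.1.2
    obtain ⟨n, hn, z, hz1, hz2⟩ := h U p.1 hU (hB.isOpen p.1.2) hUne hne p.2
    exact ⟨z, hz1, mem_iUnion₂.2 ⟨n, hn, hz2⟩⟩
  have hd : Dense (⋂ p, G p) := dense_iInter_of_isOpen hGo hGd
  obtain ⟨z, hz⟩ := hd.nonempty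
  refine ⟨z, fun N => ?_⟩
  rw [dense_iff_inter_open]
  intro V hV ⟨v, hv⟩
  obtain ⟨W, hW, hvW, hWV⟩ := hB.exists_subset_of_mem_open hv hV
  have h1 := mem_iInter.1 hz (⟨W, hW⟩, N)
  obtain ⟨n, hn, h2⟩ := mem_iUnion₂.1 h1
  exact ⟨T^[n] z, hWV h2, n, hn, rfl⟩

/-- The shift map. -/
def shift {A : Type*} (x : ℕ → A) : ℕ → A := fun i => x (i + 1)

theorem shift_iter {A : Type*} (n : ℕ) (x : ℕ → A) (i : ℕ) : (shift^[n] x) i = x (i + n) := by
  induction n generalizing x with
  | zero => rfl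
  | succ n ih =>
    rw [Function.iterate_succ_apply, ih]
    show x (i + n + 1) = _
    rw [add_assoc]

theorem shift_continuous {A : Type*} [TopologicalSpace A] : Continuous (shift (A := A)) :=
  continuous_pi fun i => continuous_apply (i + 1)

section

variable {A : Type*} [TopologicalSpace A] [DiscreteTopology A]

/-- Neighbourhoods contain cylinders. -/
theorem exists_cyl {U : Set (ℕ → A)} (hU : IsOpen U) {x : ℕ → A} (hx : x ∈ U) :
    ∃ L : ℕ, ∀ y : ℕ → A, (∀ i < L, y i = x i) → y ∈ U := by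
  have hB := PiNat.isTopologicalBasis_cylinders (fun _ : ℕ => A)
  obtain ⟨V, ⟨z, n, rfl⟩, hxV, hVU⟩ := hB.exists_subset_of_mem_open hx hU
  refine ⟨n, fun y hy => hVU ?_⟩
  intro i hi
  rw [hy i hi, hxV i hi]

theorem isOpen_cyl (x : ℕ → A) (L : ℕ) : IsOpen {y : ℕ → A | ∀ i < L, y i = x i} :=
  PiNat.isOpen_cylinder (fun _ : ℕ => A) x L

/-- The orbit closure of a point under the shift. -/
def OC (x : ℕ → A) : Set (ℕ → A) := closure (range fun n : ℕ => shift^[n] x)

theorem mem_OC {x y : ℕ → A} : y ∈ OC x ↔ ∀ L : ℕ, ∃ n : ℕ, ∀ i < L, x (i + n) = y i := by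
  constructor
  · intro hy L
    obtain ⟨_, hz, n, rfl⟩ := mem_closure_iff.1 hy _ (isOpen_cyl y L) (fun i _ => rfl)
    exact ⟨n, fun i hi => by rw [← hz i hi]; exact (shift_iter n x i).symm⟩
  · intro h
    refine mem_closure_iff.2 fun U hU hyU => ?_
    obtain ⟨L, hL⟩ := exists_cyl hU hyU
    obtain ⟨n, hn⟩ := h L
    exact ⟨shift^[n] x, hL _ (fun i hi => by rw [shift_iter, hn i hi]), n, rfl⟩

theorem iter_mem_OC (x : ℕ → A) (n : ℕ) : shift^[n] x ∈ OC x := subset_closure ⟨n, rfl⟩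

theorem self_mem_OC (x : ℕ → A) : x ∈ OC x := iter_mem_OC x 0

theorem mapsTo_OC (x : ℕ → A) : MapsTo shift (OC x) (OC x) := by
  intro y hy
  rw [mem_OC] at hy ⊢
  intro L
  obtain ⟨n, hn⟩ := hy (L + 1)
  refine ⟨n + 1, fun i hi => ?_⟩
  have := hn (i + 1) (by omega)
  show x (i + (n + 1)) = y (i + 1)
  rw [← this]
  congr 1
  omega

/-- The shift on an orbit closure. -/
def TS (x : ℕ → A) : OC x → OC x := (mapsTo_OC x).restrict

theorem TS_continuous (x : ℕ → A) : Continuous (TS x) :=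
  shift_continuous.restrict (mapsTo_OC x)

theorem TS_iter_val (x : ℕ → A) (n : ℕ) (y : OC x) : ((TS x)^[n] y : ℕ → A) = shift^[n] (y : ℕ → A) := by
  induction n generalizing y with
  | zero => rfl
  | succ n ih => rw [Function.iterate_succ_apply, Function.iterate_succ_apply, ih]; rfl

theorem TS_iter_apply (x : ℕ → A) (n : ℕ) (y : OC x) (i : ℕ) :
    ((TS x)^[n] y : ℕ → A) i = (y : ℕ → A) (i + n) := by
  rw [TS_iter_val, shift_iter]

/-- The base point. -/
def base (x : ℕ → A) : OC x := ⟨x, self_mem_OC x⟩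

/-- Neighbourhoods in an orbit closure contain relative cylinders. -/
theorem exists_cyl_OC {x : ℕ → A} {U : Set (OC x)} (hU : IsOpen U) {y : OC x} (hy : y ∈ U) :
    ∃ L : ℕ, ∀ z : OC x, (∀ i < L, (z : ℕ → A) i = (y : ℕ → A) i) → z ∈ U := by
  obtain ⟨V, hV, rfl⟩ := isOpen_induced_iff.1 hU
  obtain ⟨L, hL⟩ := exists_cyl hV (x := (y : ℕ → A)) hy
  exact ⟨L, fun z hz => hL _ hz⟩

/-- If `x` is recurrent, the orbit of `x` along times `≥ N` is dense in its orbit closure. -/
theorem dense_orbit {x : ℕ → A} (hrec : ∀ L N : ℕ, ∃ n ≥ N, ∀ i < L, x (i + n) = x i) (N : ℕ) :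
    Dense {y : OC x | ∃ n ≥ N, y = (TS x)^[n] (base x)} := by
  rw [dense_iff_inter_open]
  intro U hU ⟨y, hy⟩
  obtain ⟨L, hL⟩ := exists_cyl_OC hU hy
  obtain ⟨k, hk⟩ := mem_OC.1 y.2 L
  obtain ⟨n, hn, hx⟩ := hrec (L + k) N
  refine ⟨(TS x)^[n + k] (base x), hL _ fun i hi => ?_, n + k, by omega, rfl⟩
  rw [TS_iter_apply]
  show x (i + (n + k)) = _
  rw [show i + (n + k) = (i + k) + n by omega, hx _ (by omega), hk i hi]

theorem TS_surjective {x : ℕ → A} [CompactSpace (OC x)] [T2Space A]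
    (hrec : ∀ L N : ℕ, ∃ n ≥ N, ∀ i < L, x (i + n) = x i) : Function.Surjective (TS x) := by
  rw [← range_eq_univ]
  have hcl : IsClosed (range (TS x)) := (isCompact_range (TS_continuous x)).isClosed
  have hd : Dense (range (TS x)) := by
    refine (dense_orbit hrec 1).mono ?_
    rintro _ ⟨n, hn, rfl⟩
    refine ⟨(TS x)^[n - 1] (base x), ?_⟩
    rw [← Function.iterate_succ_apply' (TS x) (n - 1)]
    congr 1
    omega
  rw [← hcl.closure_eq, hd.closure_eq]

end

end Pool.Agent.Q189.SS
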