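import Mathlib

/-!
# Minimal systems: existence of minimal sets and sparse covering times
-/

set_option autoImplicit false

open Set Filter Topology

namespace Pool.Agent.Q189.SS

/-- `S` is minimal: there is no proper non-empty closed invariant set. -/
def IsMinimalSys {Y : Type*} [TopologicalSpace Y] (S : Y → Y) : Prop :=
  ∀ F : Set Y, IsClosed F → F.Nonempty → MapsTo S F F → F = univ

/-- Existence of minimal sets. -/
theorem exists_minimal_set {Y : Type*} [TopologicalSpace Y] [CompactSpace Y] [Nonempty Y]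
    (f : Y → Y) :
    ∃ Z : Set Y, IsClosed Z ∧ Z.Nonempty ∧ MapsTo f Z Z ∧
      ∀ F : Set Y, IsClosed F → F.Nonempty → MapsTo f F F → F ⊆ Z → F = Z := by
  obtain ⟨Z, hZ⟩ := zorn_superset {Z : Set Y | IsClosed Z ∧ Z.Nonempty ∧ MapsTo f Z Z} (by
    intro c hc hchain
    rcases c.eq_empty_or_nonempty with h | h
    · exact ⟨univ, ⟨isClosed_univ, univ_nonempty, mapsTo_univ _ _⟩, by simp [h]⟩
    · refine ⟨⋂₀ c, ⟨isClosed_sInter fun s hs => (hc hs).1, ?_, ?_⟩, fun s hs => sInter_subset_of_mem hs⟩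
      · have : Nonempty c := h.to_subtype
        rw [sInter_eq_iInter]
        refine IsCompact.nonempty_iInter_of_directed_nonempty_isCompact_isClosed _ ?_
          (fun s => (hc s.2).2.1) (fun s => (hc s.2).1.isCompact) (fun s => (hc s.2).1)
        intro s t
        rcases hchain.total s.2 t.2 with h | h
        · exact ⟨s, Subset.rfl, h⟩
        · exact ⟨t, h, Subset.rfl⟩
      · intro x hx
        exact fun s hs => (hc hs).2.2 (hx s hs))
  refine ⟨Z, hZ.prop.1, hZ.prop.2.1, hZ.prop.2.2, fun F h1 h2 h3 h4 => ?_⟩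
  exact Subset.antisymm h4 (hZ.le_of_le ⟨h1, h2, h3⟩ h4)

/-- In a minimal system, for every `g` and every non-empty open `V` there is a set `A` of times
with gaps at least `g` such that every point visits `V` at some time in `A`. -/
theorem sparse_cover {Y : Type*} [TopologicalSpace Y] [CompactSpace Y] [T2Space Y] [Nonempty Y]
    {S : Y → Y} (hS : Continuous S) (hmin : IsMinimalSys S) (g : ℕ) (hg : 0 < g) (V : Set Y)
    (hV : IsOpen V) (hVne : V.Nonempty) :
    ∃ A : Set ℕ, (∀ n ∈ A, ∀ m ∈ A, n < m → n + g ≤ m) ∧ ∀ y : Y, ∃ n ∈ A, S^[n] y ∈ V := by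
  obtain ⟨Z, hZc, hZne, hZi, hZm⟩ := exists_minimal_set (S^[g])
  -- the translates of `Z` cover
  have hcov : (⋃ i ∈ Finset.range g, S^[i] '' Z) = univ := by
    apply hmin
    · exact isClosed_biUnion_finset fun i _ => (hZc.isCompact.image (hS.iterate i)).isClosed
    · obtain ⟨z, hz⟩ := hZne
      exact ⟨z, mem_iUnion₂.2 ⟨0, Finset.mem_range.2 hg, z, hz, rfl⟩⟩
    · intro y hy
      obtain ⟨i, hi, z, hz, rfl⟩ := mem_iUnion₂.1 hy
      rw [Finset.mem_range] at hi
      rcases Nat.lt_or_ge (i + 1) g with h | h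
      · refine mem_iUnion₂.2 ⟨i + 1, Finset.mem_range.2 h, z, hz, ?_⟩
        rw [Function.iterate_succ_apply']
      · have : i + 1 = g := by omega
        refine mem_iUnion₂.2 ⟨0, Finset.mem_range.2 hg, S^[g] z, hZi hz, ?_⟩
        rw [← this, Function.iterate_zero, id, Function.iterate_succ_apply']
  have hZn : ∀ n : ℕ, MapsTo (S^[g * n]) Z Z := by
    intro n
    rw [Function.iterate_mul]
    exact hZi.iterate n
  -- the index of a translate meeting `V`
  obtain ⟨v, hv⟩ := hVne
  obtain ⟨j', hj', z', hz', hzv⟩ := mem_iUnion₂.1 (hcov ▸ mem_univ v)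
  rw [Finset.mem_range] at hj'
  -- every point of `Z` visits `S^{-j'} V` under `S^g`
  have hvis : ∀ z ∈ Z, ∃ n : ℕ, S^[j'] (S^[g * n] z) ∈ V := by
    intro z hz
    have h1 : closure (range fun n : ℕ => S^[g * n] z) = Z := by
      apply hZm
      · exact isClosed_closure
      · exact ⟨z, subset_closure ⟨0, rfl⟩⟩
      · have h2 : MapsTo (S^[g]) (range fun n : ℕ => S^[g * n] z) (range fun n : ℕ => S^[g * n] z) := by
          rintro _ ⟨n, rfl⟩
          refine ⟨n + 1, ?_⟩
          show S^[g * (n + 1)] z = S^[g] (S^[g * n] z)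
          rw [← Function.iterate_add_apply]
          congr 1
          ring
        exact h2.closure (hS.iterate g)
      · refine closure_minimal ?_ hZc
        rintro _ ⟨n, rfl⟩
        exact hZn n hz
    have h2 : z' ∈ closure (range fun n : ℕ => S^[g * n] z) := h1 ▸ hz'
    obtain ⟨_, h3, n, rfl⟩ := mem_closure_iff.1 h2 _ (hV.preimage (hS.iterate j'))
      (by show S^[j'] z' ∈ V; rw [hzv]; exact hv)
    exact ⟨n, h3⟩
  obtain ⟨t, ht⟩ := hZc.isCompact.elim_finite_subcover
    (fun n : ℕ => {z | S^[j'] (S^[g * n] z) ∈ V})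
    (fun n => hV.preimage ((hS.iterate j').comp (hS.iterate (g * n)))) (fun z hz => by
      obtain ⟨n, hn⟩ := hvis z hz
      exact mem_iUnion.2 ⟨n, hn⟩)
  obtain ⟨M, hM⟩ : ∃ M : ℕ, ∀ n ∈ t, n < M := ⟨t.sup id + 1, fun n hn =>
    Nat.lt_succ_of_le (Finset.le_sup (f := id) hn)⟩
  refine ⟨{m | ∃ i n : ℕ, i < g ∧ n < M ∧ m = i * (g * M + g + 1) + g * n}, ?_, ?_⟩
  · rintro _ ⟨i, n, hi, hn, rfl⟩ _ ⟨i', n', hi', hn', rfl⟩ hlt
    have hgn : g * n + g ≤ g * M := by
      have : g * (n + 1) ≤ g * M := Nat.mul_le_mul_left g hn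
      linarith
    have hgn' : g * n' + g ≤ g * M := by
      have : g * (n' + 1) ≤ g * M := Nat.mul_le_mul_left g hn'
      linarith
    rcases lt_trichotomy i i' with h | h | h
    · obtain ⟨d, rfl⟩ : ∃ d, i' = i + 1 + d := ⟨i' - (i + 1), by omega⟩
      have : (i + 1 + d) * (g * M + g + 1) = i * (g * M + g + 1) + (g * M + g + 1)
          + d * (g * M + g + 1) := by ring
      rw [this]
      have h0 : 0 ≤ d * (g * M + g + 1) := Nat.zero_le _
      omega
    · subst h
      have h2 : n < n' := by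
        by_contra hle
        have : g * n' ≤ g * n := Nat.mul_le_mul_left g (not_lt.1 hle)
        omega
      have : g * (n + 1) ≤ g * n' := Nat.mul_le_mul_left g h2
      have h3 : g * (n + 1) = g * n + g := by ring
      omega
    · exfalso
      obtain ⟨d, rfl⟩ : ∃ d, i = i' + 1 + d := ⟨i - (i' + 1), by omega⟩
      have : (i' + 1 + d) * (g * M + g + 1) = i' * (g * M + g + 1) + (g * M + g + 1)
          + d * (g * M + g + 1) := by ring
      rw [this] at hlt
      have h0 : 0 ≤ d * (g * M + g + 1) := Nat.zero_le _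
      omega
  · intro y
    obtain ⟨j, hj, z, hz, rfl⟩ := mem_iUnion₂.1 (hcov ▸ mem_univ y)
    rw [Finset.mem_range] at hj
    -- choose `i` with `j + i ≡ j'`
    obtain ⟨i, hi, h, hij⟩ : ∃ i < g, ∃ h : ℕ, j + i * (g * M + g + 1) = j' + g * h := by
      rcases le_or_gt j j' with hle | hlt
      · refine ⟨j' - j, by omega, (j' - j) * (M + 1), ?_⟩
        obtain ⟨d, rfl⟩ : ∃ d, j' = j + d := ⟨j' - j, by omega⟩
        rw [Nat.add_sub_cancel_left]
        ring
      · refine ⟨g + j' - j, by omega, (g + j' - j) * (M + 1) + 1, ?_⟩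
        obtain ⟨d, hd⟩ : ∃ d, g + j' = j + d := ⟨g + j' - j, by omega⟩
        rw [hd, Nat.add_sub_cancel_left]
        have : j' + g * (d * (M + 1) + 1) = (g + j') + g * (d * (M + 1)) := by ring
        rw [this, hd]
        ring
    have hz2 : S^[g * h] z ∈ Z := hZn h hz
    obtain ⟨n, hn, h3⟩ := mem_iUnion₂.1 (ht hz2)
    refine ⟨i * (g * M + g + 1) + g * n, ⟨i, n, hi, hM n hn, rfl⟩, ?_⟩
    rw [← Function.iterate_add_apply, show i * (g * M + g + 1) + g * n + j
      = j' + (g * n + g * h) by omega, Function.iterate_add_apply, Function.iterate_add_apply]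
    exact h3

end Pool.Agent.Q189.SS
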