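import Pool.Agent.Q189.SS.Basic

/-!
# Spacing shifts

`Sp E` is the set of 0-1 sequences such that the difference of the positions of two ones never
belongs to `E`.
-/

set_option autoImplicit false

open Set Filter Topology

namespace Pool.Agent.Q189.SS

/-- The spacing shift with forbidden differences `E`. -/
def Sp (E : Set ℕ) : Set (ℕ → Bool) :=
  {y | ∀ i j : ℕ, i < j → y i = true → y j = true → j - i ∉ E}

theorem isClosed_Sp (E : Set ℕ) : IsClosed (Sp E) := by
  have h : Sp E = ⋂ i : ℕ, ⋂ j : ℕ, ⋂ _ : i < j ∧ j - i ∈ E,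
      {y : ℕ → Bool | ¬ (y i = true ∧ y j = true)} := by
    ext y
    simp only [mem_iInter]
    constructor
    · intro hy i j hij h
      exact hy i j hij.1 h.1 h.2 hij.2
    · intro hy i j hij h1 h2 h3
      exact hy i j ⟨hij, h3⟩ ⟨h1, h2⟩
  rw [h]
  refine isClosed_iInter fun i => isClosed_iInter fun j => isClosed_iInter fun _ => ?_
  have hc : Continuous (fun y : ℕ → Bool => (y i, y j)) :=
    (continuous_apply i).prodMk (continuous_apply j)
  exact (isClosed_discrete {q : Bool × Bool | ¬ (q.1 = true ∧ q.2 = true)}).preimage hc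

instance (E : Set ℕ) : CompactSpace (Sp E) := isCompact_iff_compactSpace.1 (isClosed_Sp E).isCompact

theorem mapsTo_Sp (E : Set ℕ) : MapsTo shift (Sp E) (Sp E) := by
  intro y hy i j hij h1 h2
  have := hy (i + 1) (j + 1) (by omega) h1 h2
  rwa [Nat.add_sub_add_right] at this

/-- The shift on `Sp E`. -/
def TSp (E : Set ℕ) : Sp E → Sp E := (mapsTo_Sp E).restrict

theorem TSp_continuous (E : Set ℕ) : Continuous (TSp E) := shift_continuous.restrict (mapsTo_Sp E)

theorem TSp_surjective (E : Set ℕ) : Function.Surjective (TSp E) := by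
  intro y
  refine ⟨⟨fun i => if i = 0 then false else (y : ℕ → Bool) (i - 1), ?_⟩, ?_⟩
  · intro i j hij h1 h2
    rcases Nat.eq_zero_or_pos i with h | h
    · simp [h] at h1
    · simp only [if_neg h.ne'] at h1
      simp only [if_neg (show j ≠ 0 by omega)] at h2
      have := y.2 (i - 1) (j - 1) (by omega) h1 h2
      rwa [show j - 1 - (i - 1) = j - i by omega] at this
  · apply Subtype.ext
    funext i
    show (if i + 1 = 0 then false else (y : ℕ → Bool) (i + 1 - 1)) = (y : ℕ → Bool) i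
    rw [if_neg (by omega), Nat.add_sub_cancel]

theorem TSp_iter_apply (E : Set ℕ) (n : ℕ) (y : Sp E) (i : ℕ) :
    ((TSp E)^[n] y : ℕ → Bool) i = (y : ℕ → Bool) (i + n) := by
  induction n generalizing y i with
  | zero => rfl
  | succ n ih =>
    rw [Function.iterate_succ_apply, ih]
    show (y : ℕ → Bool) (i + n + 1) = _
    rw [add_assoc]

/-- The zero sequence. -/
def zeroSp (E : Set ℕ) : Sp E := ⟨fun _ => false, fun i j _ h _ => by simp at h⟩

instance (E : Set ℕ) : Nonempty (Sp E) := ⟨zeroSp E⟩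

theorem exists_cyl_Sp {E : Set ℕ} {U : Set (Sp E)} (hU : IsOpen U) {y : Sp E} (hy : y ∈ U) :
    ∃ L : ℕ, ∀ z : Sp E, (∀ i < L, (z : ℕ → Bool) i = (y : ℕ → Bool) i) → z ∈ U := by
  obtain ⟨V, hV, rfl⟩ := isOpen_induced_iff.1 hU
  obtain ⟨L, hL⟩ := exists_cyl hV (x := (y : ℕ → Bool)) hy
  exact ⟨L, fun z hz => hL _ hz⟩

/-- `n` is in the middle of a gap of `E` of radius `L`. -/
def GapAt (E : Set ℕ) (n L : ℕ) : Prop := L ≤ n ∧ ∀ e, n ≤ e + L → e ≤ n + L → e ∉ E

/-- The concatenation of the first `L` symbols of `u`, zeros, and the first `L` symbols of `v`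
starting at position `n`. -/
def glue (u v : ℕ → Bool) (L n : ℕ) : ℕ → Bool :=
  fun i => if i < L then u i else if n ≤ i ∧ i < n + L then v (i - n) else false

theorem glue_mem {E : Set ℕ} {u v : ℕ → Bool} (hu : u ∈ Sp E) (hv : v ∈ Sp E) {L n : ℕ}
    (h : GapAt E n L) : glue u v L n ∈ Sp E := by
  intro i j hij h1 h2
  unfold glue at h1 h2
  obtain ⟨hLn, hE⟩ := h
  by_cases hi : i < L
  · rw [if_pos hi] at h1
    by_cases hj : j < L
    · rw [if_pos hj] at h2
      exact hu i j hij h1 h2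
    · rw [if_neg hj] at h2
      by_cases hj' : n ≤ j ∧ j < n + L
      · exact hE _ (by omega) (by omega)
      · rw [if_neg hj'] at h2
        exact absurd h2 (by simp)
  · rw [if_neg hi] at h1
    rw [if_neg (by omega)] at h2
    by_cases hi' : n ≤ i ∧ i < n + L
    · rw [if_pos hi'] at h1
      by_cases hj' : n ≤ j ∧ j < n + L
      · rw [if_pos hj'] at h2
        have := hv (i - n) (j - n) (by omega) h1 h2
        rwa [show j - n - (i - n) = j - i by omega] at this
      · rw [if_neg hj'] at h2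
        exact absurd h2 (by simp)
    · rw [if_neg hi'] at h1
      exact absurd h1 (by simp)

theorem glue_left (u v : ℕ → Bool) (L n i : ℕ) (hi : i < L) : glue u v L n i = u i := by
  unfold glue; rw [if_pos hi]

theorem glue_right (u v : ℕ → Bool) (L n i : ℕ) (hLn : L ≤ n) (hi : i < L) :
    glue u v L n (i + n) = v i := by
  unfold glue
  rw [if_neg (by omega), if_pos ⟨by omega, by omega⟩, Nat.add_sub_cancel]

/-- Hitting times contain the middles of large gaps. -/
theorem hit_of_gap {E : Set ℕ} {U V : Set (Sp E)} (hU : IsOpen U) (hV : IsOpen V)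
    (hUne : U.Nonempty) (hVne : V.Nonempty) :
    ∃ L : ℕ, ∀ L' ≥ L, ∀ n, GapAt E n L' → (U ∩ (TSp E)^[n] ⁻¹' V).Nonempty := by
  obtain ⟨u, hu⟩ := hUne
  obtain ⟨v, hv⟩ := hVne
  obtain ⟨L1, h1⟩ := exists_cyl_Sp hU hu
  obtain ⟨L2, h2⟩ := exists_cyl_Sp hV hv
  refine ⟨L1 + L2, fun L hL n hn => ⟨⟨glue u v L n, glue_mem u.2 v.2 hn⟩, ?_, ?_⟩⟩
  · exact h1 _ fun i hi => glue_left _ _ _ _ _ (by omega)
  · refine h2 _ fun i hi => ?_
    rw [TSp_iter_apply]
    exact glue_right _ _ _ _ _ hn.1 (by omega)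

end Pool.Agent.Q189.SS
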